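import Pool.Agent.Lib.P42tw.Check
/-! # The edges of the second graph and seven cycles -/
set_option autoImplicit false
set_option maxRecDepth 1000000
namespace Pool.Agent.Lib.P42tx
open Pool.Agent.Lib.P42tw
def E : List (Nat × Nat) :=
  [(0, 1), (1, 2), (0, 3), (2, 4), (4, 3), (0, 5), (5, 6), (6, 4), (3, 7), (6, 8), (8, 7), (1, 9), (9, 7), (2, 10), (10, 8), (10, 11), (11, 9), (5, 11)]

def C : List (Nat × Word) :=
  [(4, [8, 5, 0, 2, 6]),
    (6, [14, 8, 5, 10, 12]),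
    (8, [20, 17, 9, 15, 18]),
    (9, [24, 17, 5, 0, 22]),
    (10, [28, 19, 14, 7, 26]),
    (11, [32, 23, 2, 26, 30]),
    (5, [34, 31, 28, 19, 13])]

end Pool.Agent.Lib.P42tx
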